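import Pool.Agent.H54.OrderUnit

set_option autoImplicit false
set_option linter.unusedSectionVars false

namespace Pool.Agent.H54

section CStar

variable {A : Type} [CStarAlgebra A] [PartialOrder A] [StarOrderedRing A]

instance : PosSMulMono ℝ (selfAdjoint A) where
  smul_le_smul_of_nonneg_left r hr x y hxy := by
    change r • (x : A) ≤ r • (y : A)
    exact smul_le_smul_of_nonneg_left hxy hr

theorem ordUnit_one : OrdUnit (1 : selfAdjoint A) := by
  intro x
  refine ⟨‖(x : A)‖ + 1, by positivity, ?_⟩
  change (x : A) ≤ ((‖(x : A)‖ + 1) • (1 : A))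
  have h1 := IsSelfAdjoint.le_algebraMap_norm_self (a := (x : A)) x.2
  rw [Algebra.algebraMap_eq_smul_one] at h1
  refine h1.trans ?_
  rw [add_smul, one_smul]
  exact le_add_of_nonneg_right zero_le_one

theorem mem_posCone_iff {x : selfAdjoint A} :
    x ∈ PosCone (1 : selfAdjoint A) ↔ 0 ≤ (x : A) ∧ IsUnit (x : A) := by
  constructor
  · rintro ⟨ε, hε, h⟩
    have h' : ε • (1 : A) ≤ (x : A) := h
    have h0 : (0 : A) ≤ ε • (1 : A) := smul_nonneg hε.le zero_le_one
    refine ⟨h0.trans h', ?_⟩
    have hu : IsUnit (ε • (1 : A)) := by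
      rw [← Algebra.algebraMap_eq_smul_one]
      exact (IsUnit.mk0 ε hε.ne').map (algebraMap ℝ A)
    have hsp : IsStrictlyPositive (ε • (1 : A)) := ⟨h0, hu⟩
    exact CStarAlgebra.isUnit_of_le _ h'
  · rintro ⟨h0, hu⟩
    rcases subsingleton_or_nontrivial A with hA | hA
    · exact ⟨1, one_pos, le_of_eq (Subsingleton.elim _ _)⟩
    have h1 : ∃ r > 0, algebraMap ℝ A r ≤ (x : A) := by
      rw [CFC.exists_pos_algebraMap_le_iff (a := (x : A)) x.2]
      intro r hr
      have h2 : 0 ≤ r := spectrum_nonneg_of_nonneg h0 hr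
      refine lt_of_le_of_ne h2 ?_
      rintro rfl
      exact (spectrum.zero_notMem_iff ℝ).2 hu hr
    obtain ⟨r, hr, h⟩ := h1
    refine ⟨r, hr, ?_⟩
    change r • (1 : A) ≤ (x : A)
    rwa [← Algebra.algebraMap_eq_smul_one]

/-- conjugation `a ↦ star x * a * x` on self-adjoint elements -/
def conj (x : A) : selfAdjoint A →ₗ[ℝ] selfAdjoint A where
  toFun a := ⟨star x * (a : A) * x, IsSelfAdjoint.conjugate' a.2 x⟩
  map_add' a b := by
    apply Subtype.ext
    change star x * ((a : A) + (b : A)) * x = star x * (a : A) * x + star x * (b : A) * x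
    rw [mul_add, add_mul]
  map_smul' r a := by
    apply Subtype.ext
    change star x * (r • (a : A)) * x = r • (star x * (a : A) * x)
    rw [mul_smul_comm, smul_mul_assoc]

@[simp] theorem conj_coe (x : A) (a : selfAdjoint A) :
    ((conj x a : selfAdjoint A) : A) = star x * (a : A) * x := rfl

theorem conj_nonneg (x : A) {a : selfAdjoint A} (ha : 0 ≤ a) : 0 ≤ conj x a :=
  star_left_conjugate_nonneg (R := A) ha x

theorem conj_mem (x : A) (hx : IsUnit x) {a : selfAdjoint A}
    (ha : a ∈ PosCone (1 : selfAdjoint A)) : conj x a ∈ PosCone (1 : selfAdjoint A) := by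
  rw [mem_posCone_iff] at ha ⊢
  refine ⟨conj_nonneg x ha.1, ?_⟩
  rw [conj_coe]
  exact ((hx.star).mul ha.2).mul hx

theorem isPure_conj {φ : selfAdjoint A →ₗ[ℝ] ℝ} (hφ : IsPure (1 : selfAdjoint A) φ)
    (x : A) (hx : IsUnit x) : IsPure (1 : selfAdjoint A) (φ.comp (conj x)) := by
  refine ⟨?_, ?_, ?_⟩
  · intro a ha
    exact hφ.pos _ (conj_nonneg x ha)
  · exact hφ.apply_pos (conj_mem x hx (by
      have := smul_u_mem (u := (1 : selfAdjoint A)) one_pos
      rwa [one_smul] at this))
  · intro ψ hψ hle
    obtain ⟨v, rfl⟩ := hx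
    have h1 : ∀ a : selfAdjoint A, conj (v : A) (conj ((v⁻¹ : Aˣ) : A) a) = a := by
      intro a
      apply Subtype.ext
      rw [conj_coe, conj_coe]
      have e1 : star (v : A) * star ((v⁻¹ : Aˣ) : A) = 1 := by
        rw [← star_mul, Units.inv_mul, star_one]
      calc star (v : A) * (star ((v⁻¹ : Aˣ) : A) * (a : A) * ((v⁻¹ : Aˣ) : A)) * (v : A)
          = (star (v : A) * star ((v⁻¹ : Aˣ) : A)) * (a : A) * (((v⁻¹ : Aˣ) : A) * (v : A)) := by
            simp only [mul_assoc]
        _ = (a : A) := by rw [e1, Units.inv_mul, one_mul, mul_one]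
    have h2 : ∀ a : selfAdjoint A, conj ((v⁻¹ : Aˣ) : A) (conj (v : A) a) = a := by
      intro a
      apply Subtype.ext
      rw [conj_coe, conj_coe]
      have e1 : star ((v⁻¹ : Aˣ) : A) * star (v : A) = 1 := by
        rw [← star_mul, Units.mul_inv, star_one]
      calc star ((v⁻¹ : Aˣ) : A) * (star (v : A) * (a : A) * (v : A)) * ((v⁻¹ : Aˣ) : A)
          = (star ((v⁻¹ : Aˣ) : A) * star (v : A)) * (a : A) * ((v : A) * ((v⁻¹ : Aˣ) : A)) := by
            simp only [mul_assoc]
        _ = (a : A) := by rw [e1, Units.mul_inv, one_mul, mul_one]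
    obtain ⟨r, hr⟩ := hφ.pure (ψ.comp (conj ((v⁻¹ : Aˣ) : A)))
      (fun a ha => hψ _ (conj_nonneg _ ha)) (by
        intro a ha
        have := hle _ (conj_nonneg ((v⁻¹ : Aˣ) : A) ha)
        simp only [LinearMap.comp_apply] at this ⊢
        rwa [h1] at this)
    refine ⟨r, ?_⟩
    ext a
    have := LinearMap.congr_fun hr (conj (v : A) a)
    simp only [LinearMap.comp_apply, LinearMap.smul_apply] at this ⊢
    rwa [h2] at this

/-- `a ↦ i (a h - h a)` on self-adjoint elements -/
noncomputable def comm (h a : selfAdjoint A) : selfAdjoint A :=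
  ⟨Complex.I • ((a : A) * (h : A) - (h : A) * (a : A)), by
    have ha : star (a : A) = a := a.2
    have hh : star (h : A) = h := h.2
    change star (Complex.I • ((a : A) * (h : A) - (h : A) * (a : A))) = _
    rw [star_smul, star_sub, star_mul, star_mul, ha, hh, Complex.star_def, Complex.conj_I,
      neg_smul, ← smul_neg, neg_sub]⟩

/-- the element `s + i t h` -/
noncomputable def lin (h : selfAdjoint A) (s t : ℝ) : A :=
  s • (1 : A) + ((t : ℂ) * Complex.I) • (h : A)

theorem conj_lin (h a : selfAdjoint A) (s t : ℝ) :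
    conj (lin h s t) a = s ^ 2 • a + t ^ 2 • conj (h : A) a + (s * t) • comm h a := by
  apply Subtype.ext
  have hh : star (h : A) = h := h.2
  have hs : star (lin h s t) = s • (1 : A) - ((t : ℂ) * Complex.I) • (h : A) := by
    rw [lin, star_add, star_smul, star_smul, star_one, hh]
    simp only [Complex.star_def, map_mul, Complex.conj_ofReal, Complex.conj_I, star_trivial]
    rw [mul_neg, neg_smul, sub_eq_add_neg]
  change star (lin h s t) * (a : A) * lin h s t = s ^ 2 • (a : A) +
    t ^ 2 • (star (h : A) * (a : A) * (h : A)) +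
    (s * t) • (Complex.I • ((a : A) * (h : A) - (h : A) * (a : A)))
  rw [hs, lin, hh]
  have r1 : ∀ (r : ℝ) (x : A), r • x = (r : ℂ) • x := fun r x => (Complex.coe_smul r x).symm
  simp only [r1, sub_mul, mul_add, smul_mul_assoc, mul_smul_comm, one_mul, mul_one,
    smul_smul, smul_sub, mul_assoc]
  have hI : Complex.I * Complex.I = -1 := Complex.I_mul_I
  have e1 : (t : ℂ) * (Complex.I * ((t : ℂ) * Complex.I)) = -((t : ℂ) ^ 2) := by
    have : (t : ℂ) * (Complex.I * ((t : ℂ) * Complex.I)) = (t : ℂ) ^ 2 * (Complex.I * Complex.I) := by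
      ring
    rw [this, hI]; ring
  push_cast
  rw [e1]
  module

theorem comm_bound {φ : selfAdjoint A →ₗ[ℝ] ℝ} (hφ : PosFun φ) (h : selfAdjoint A)
    {a : selfAdjoint A} (ha : 0 ≤ a) :
    |φ (comm h a)| ≤ 2 * Real.sqrt (φ a * φ (conj (h : A) a)) := by
  have h1 : ∀ s : ℝ, 0 ≤ φ a * (s * s) + φ (comm h a) * s + φ (conj (h : A) a) := by
    intro s
    have := hφ _ (conj_nonneg (lin h s 1) ha)
    rw [conj_lin] at this
    simp only [map_add, map_smul, smul_eq_mul] at this
    nlinarith
  have h2 := discrim_le_zero h1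
  rw [discrim] at h2
  have hp : 0 ≤ φ a * φ (conj (h : A) a) := mul_nonneg (hφ _ ha) (hφ _ (conj_nonneg _ ha))
  apply abs_le_of_sq_le_sq _ (by positivity)
  rw [mul_pow, Real.sq_sqrt hp]
  nlinarith

theorem isUnit_lin (h : selfAdjoint A) (s : ℝ) : IsUnit (lin h 1 s) := by
  have hh : star (h : A) = h := h.2
  have key : ∀ t : ℝ, lin h 1 t * lin h 1 (-t) = 1 + t ^ 2 • ((h : A) * (h : A)) := by
    intro t
    rw [lin, lin]
    have r1 : ∀ (r : ℝ) (x : A), r • x = (r : ℂ) • x := fun r x => (Complex.coe_smul r x).symm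
    have hI : Complex.I * Complex.I = -1 := Complex.I_mul_I
    push_cast
    have e1 : (-(t : ℂ) * Complex.I) * ((t : ℂ) * Complex.I) = ((t : ℂ) ^ 2) := by
      have : (-(t : ℂ) * Complex.I) * ((t : ℂ) * Complex.I) = -((t : ℂ) ^ 2 * (Complex.I * Complex.I)) := by
        ring
      rw [this, hI]; ring
    simp only [r1, add_mul, mul_add, smul_mul_assoc, mul_smul_comm, one_mul, mul_one, smul_add,
      smul_smul]
    rw [e1]
    push_cast
    module
  have hcomm : Commute (lin h 1 s) (lin h 1 (-s)) := by
    have e1 := key s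
    have e2 := key (-s)
    rw [neg_neg] at e2
    have : lin h 1 s * lin h 1 (-s) = lin h 1 (-s) * lin h 1 s := by
      rw [e1, e2]; norm_num
    exact this
  have hunit : IsUnit (lin h 1 s * lin h 1 (-s)) := by
    rw [key]
    have h1 : (1 : A) ≤ 1 + s ^ 2 • ((h : A) * (h : A)) := by
      apply le_add_of_nonneg_right
      apply smul_nonneg (sq_nonneg _)
      have := star_mul_self_nonneg (h : A)
      rwa [hh] at this
    exact CStarAlgebra.isUnit_of_le 1 h1
  exact (hcomm.isUnit_mul_iff.1 hunit).1

variable {G : Type*} [AddCommGroup G] [PartialOrder G] [IsOrderedAddMonoid G]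

theorem ext_of_posCone {φ ψ : selfAdjoint A →ₗ[ℝ] ℝ}
    (h : ∀ a ∈ PosCone (1 : selfAdjoint A), φ a = ψ a) : φ = ψ := by
  ext x
  obtain ⟨r, hr, h1⟩ := ordUnit_one (A := A) (-x)
  have e1 := h (x + (r + 1) • (1 : selfAdjoint A)) (by
    refine ⟨1, one_pos, ?_⟩
    rw [add_smul, ← add_assoc]
    apply le_add_of_nonneg_left
    have := add_le_add_right h1 x
    simpa using this)
  have e2 := h ((r + 1) • (1 : selfAdjoint A)) (smul_u_mem (by linarith))
  simp only [map_add] at e1
  linarith

/-- A pure functional is proportional to its conjugates by invertible self-adjoint elements,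
provided the cone carries a compatible commutative group structure. -/
theorem conj_prop {ι : G → selfAdjoint A} (hι : ConeIso (1 : selfAdjoint A) ι)
    {φ : selfAdjoint A →ₗ[ℝ] ℝ} (hφ : IsPure (1 : selfAdjoint A) φ)
    (h : selfAdjoint A) (hh : IsUnit (h : A)) :
    ∃ r : ℝ, φ.comp (conj (h : A)) = r • φ := by
  by_contra hne'
  have hu := ordUnit_one (A := A)
  set F1 := φ.comp (conj (h : A)) with hF1
  have hF1p : IsPure (1 : selfAdjoint A) F1 := isPure_conj hφ _ hh
  have hne : ¬ ∃ r : ℝ, φ = r • F1 := by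
    rintro ⟨r, hr⟩
    apply hne'
    refine ⟨r⁻¹, ?_⟩
    have hr0 : r ≠ 0 := by
      rintro rfl
      have := hφ.upos
      rw [hr] at this
      simp at this
    rw [eq_inv_smul_iff₀ hr0]; exact hr.symm
  -- the comparison with scaling
  have key : ∀ s : ℝ, 0 < s →
      (∀ a b c : G, φ (ι a) < s * F1 (ι b) → φ (ι (a + c)) ≤ s * F1 (ι (b + c))) ∧
      (∀ a b c : G, s * F1 (ι a) < φ (ι b) → s * F1 (ι (a + c)) ≤ φ (ι (b + c))) := by
    intro s hs
    set k : selfAdjoint A := Real.sqrt s • h with hk
    have hsq : 0 < Real.sqrt s := Real.sqrt_pos.2 hs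
    have hkunit : IsUnit (k : A) := by
      have : (k : A) = Real.sqrt s • (h : A) := rfl
      rw [this]
      exact (hh.smul (Units.mk0 (Real.sqrt s) hsq.ne') : _)
    have hck : ∀ a, conj (k : A) a = s • conj (h : A) a := by
      intro a
      apply Subtype.ext
      change star (Real.sqrt s • (h : A)) * (a : A) * (Real.sqrt s • (h : A)) =
        s • (star (h : A) * (a : A) * (h : A))
      rw [star_smul, star_trivial, smul_mul_assoc, smul_mul_assoc, mul_smul_comm, smul_smul,
        Real.mul_self_sqrt hs.le]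
    have hf1 : ∀ a, (φ.comp (conj (k : A))) a = s * F1 a := by
      intro a
      simp only [LinearMap.comp_apply, hck, map_smul, smul_eq_mul, hF1]
    have hf1p : IsPure (1 : selfAdjoint A) (φ.comp (conj (k : A))) := isPure_conj hφ _ hkunit
    have hfp : IsPure (1 : selfAdjoint A) (φ.comp (conj (lin k 1 1))) :=
      isPure_conj hφ _ (isUnit_lin k _)
    have hfm : IsPure (1 : selfAdjoint A) (φ.comp (conj (lin k 1 (-1)))) :=
      isPure_conj hφ _ (isUnit_lin k _)
    have ep : ∀ a, (φ.comp (conj (lin k 1 1))) a =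
        φ a + (φ.comp (conj (k : A))) a + φ (comm k a) := by
      intro a
      simp only [LinearMap.comp_apply, conj_lin, map_add, map_smul, smul_eq_mul]
      ring
    have em : ∀ a, (φ.comp (conj (lin k 1 (-1)))) a =
        φ a + (φ.comp (conj (k : A))) a - φ (comm k a) := by
      intro a
      simp only [LinearMap.comp_apply, conj_lin, map_add, map_smul, smul_eq_mul]
      ring
    have hn1 : ¬ ∃ r : ℝ, φ = r • φ.comp (conj (k : A)) := by
      rintro ⟨r, hr⟩
      apply hne
      refine ⟨r * s, ?_⟩
      ext a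
      have := LinearMap.congr_fun hr a
      rw [LinearMap.smul_apply, hf1] at this
      rw [this, LinearMap.smul_apply]
      simp only [smul_eq_mul]; ring
    have hn2 : ¬ ∃ r : ℝ, φ.comp (conj (k : A)) = r • φ := by
      rintro ⟨r, hr⟩
      apply hne'
      refine ⟨s⁻¹ * r, ?_⟩
      ext a
      have := LinearMap.congr_fun hr a
      rw [LinearMap.smul_apply, hf1] at this
      rw [LinearMap.smul_apply, mul_smul, ← this]
      simp only [smul_eq_mul]
      field_simp
    have hb : ∀ a ∈ PosCone (1 : selfAdjoint A), |φ (comm k a)| ≤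
        2 * Real.sqrt (φ a * (φ.comp (conj (k : A))) a) := fun a ha =>
      comm_bound hφ.pos k (posCone_nonneg hu ha)
    constructor
    · intro a b c hlt
      rw [← hf1] at hlt ⊢
      refine compare hι hu hφ hf1p hfp hfm ?_ ?_ ?_ hn1 hn2 c hlt
      · intro x; rw [ep, em]; ring
      · intro x hx
        rw [ep]
        have := hb x hx
        have e : φ x + (φ.comp (conj (k : A))) x + φ (comm k x) - φ x -
          (φ.comp (conj (k : A))) x = φ (comm k x) := by ring
        rw [e]; exact this
      · intro x hx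
        rw [em]
        have := hb x hx
        have e : φ x + (φ.comp (conj (k : A))) x - φ (comm k x) - φ x -
          (φ.comp (conj (k : A))) x = -φ (comm k x) := by ring
        rw [e, abs_neg]; exact this
    · intro a b c hlt
      rw [← hf1] at hlt ⊢
      refine compare hι hu hf1p hφ hfp hfm ?_ ?_ ?_ hn2 hn1 c hlt
      · intro x; rw [ep, em]; ring
      · intro x hx
        rw [ep]
        have := hb x hx
        have e : φ x + (φ.comp (conj (k : A))) x + φ (comm k x) -
          (φ.comp (conj (k : A))) x - φ x = φ (comm k x) := by ring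
        rw [e, mul_comm ((φ.comp (conj (k : A))) x)]; exact this
      · intro x hx
        rw [em]
        have := hb x hx
        have e : φ x + (φ.comp (conj (k : A))) x - φ (comm k x) -
          (φ.comp (conj (k : A))) x - φ x = -φ (comm k x) := by ring
        rw [e, abs_neg, mul_comm ((φ.comp (conj (k : A))) x)]; exact this
  have p0 : 0 < φ (ι 0) := hφ.apply_pos (hι.mem 0)
  have p1 : 0 < F1 (ι 0) := hF1p.apply_pos (hι.mem 0)
  apply hne
  refine ⟨φ (ι 0) / F1 (ι 0), ?_⟩
  apply ext_of_posCone
  intro x hx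
  obtain ⟨c, rfl⟩ := hι.surj x hx
  have q0 : 0 < φ (ι c) := hφ.apply_pos (hι.mem c)
  have q1 : 0 < F1 (ι c) := hF1p.apply_pos (hι.mem c)
  have hr : 0 < φ (ι 0) / F1 (ι 0) := div_pos p0 p1
  rw [LinearMap.smul_apply, smul_eq_mul]
  apply le_antisymm
  · by_contra hcon
    push Not at hcon
    -- choose `s` slightly bigger than the ratio
    have h1 : φ (ι 0) / F1 (ι 0) < φ (ι c) / F1 (ι c) := by
      rw [lt_div_iff₀ q1]; exact hcon
    obtain ⟨s, hs1, hs2⟩ := exists_between h1
    have := (key s (hr.trans hs1)).1 0 0 c (by rwa [div_lt_iff₀ p1] at hs1)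
    rw [zero_add] at this
    rw [lt_div_iff₀ q1] at hs2
    linarith
  · by_contra hcon
    push Not at hcon
    have h1 : φ (ι c) / F1 (ι c) < φ (ι 0) / F1 (ι 0) := by
      rw [div_lt_iff₀ q1]; exact hcon
    obtain ⟨s, hs1, hs2⟩ := exists_between h1
    have hs0 : 0 < s := (div_pos q0 q1).trans hs1
    have := (key s hs0).2 0 0 c (by rwa [lt_div_iff₀ p1] at hs2)
    rw [zero_add] at this
    rw [div_lt_iff₀ q1] at hs1
    linarith

/-- If the cone is isomorphic to an ordered commutative group then every pure state kills all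
commutators. -/
theorem pure_comm_eq_zero {ι : G → selfAdjoint A} (hι : ConeIso (1 : selfAdjoint A) ι)
    {φ : selfAdjoint A →ₗ[ℝ] ℝ} (hφ : IsPure (1 : selfAdjoint A) φ) (hφ1 : φ 1 = 1)
    (k l : selfAdjoint A) : φ (comm k l) = 0 := by
  -- Jordan multiplicativity on squares
  have hsq : ∀ k : selfAdjoint A, φ (conj (k : A) 1) = φ k ^ 2 := by
    intro k
    have hk : star (k : A) = k := k.2
    -- a small real number `t` with `1 ± t k` invertible
    obtain ⟨t, ht0, ht⟩ : ∃ t : ℝ, 0 < t ∧ ∀ s : ℝ, |s| = t → IsUnit (1 + s • (k : A)) := by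
      refine ⟨1 / (‖(k : A)‖ + 1), by positivity, ?_⟩
      intro s hs
      have h1 : ‖-(s • (k : A))‖ < 1 := by
        rw [norm_neg, norm_smul, Real.norm_eq_abs, hs, one_div, inv_mul_lt_iff₀ (by positivity)]
        linarith
      have := (Units.oneSub _ h1).isUnit
      rw [Units.val_oneSub, sub_neg_eq_add] at this
      exact this
    -- expansions
    have hexp : ∀ s : ℝ, ∀ a : selfAdjoint A,
        conj (1 + s • (k : A)) a = a + s ^ 2 • conj (k : A) a +
          s • ⟨(k : A) * (a : A) + (a : A) * (k : A), by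
            have ha : star (a : A) = a := a.2
            change star ((k : A) * (a : A) + (a : A) * (k : A)) = _
            rw [star_add, star_mul, star_mul, ha, hk, add_comm]⟩ := by
      intro s a
      apply Subtype.ext
      change star (1 + s • (k : A)) * (a : A) * (1 + s • (k : A)) =
        (a : A) + s ^ 2 • (star (k : A) * (a : A) * (k : A)) +
          s • ((k : A) * (a : A) + (a : A) * (k : A))
      rw [star_add, star_one, star_smul, star_trivial, hk]
      simp only [add_mul, mul_add, one_mul, mul_one, smul_mul_assoc, mul_smul_comm, smul_add,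
        smul_smul]
      rw [← sq]
      abel
    have hprop : ∀ s : ℝ, |s| = t → ∀ a : selfAdjoint A,
        φ (conj (1 + s • (k : A)) a) = φ (conj (1 + s • (k : A)) 1) * φ a := by
      intro s hs a
      obtain ⟨r, hr⟩ := conj_prop hι hφ (1 + s • k) (by
        have := ht s hs
        exact this)
      have e1 := LinearMap.congr_fun hr a
      have e2 := LinearMap.congr_fun hr 1
      simp only [LinearMap.comp_apply, LinearMap.smul_apply, smul_eq_mul] at e1 e2
      rw [hφ1, mul_one] at e2
      change φ (conj (1 + s • (k : A)) a) = r * φ a at e1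
      change φ (conj (1 + s • (k : A)) 1) = r at e2
      rw [e1, e2]
    have ea := hprop t (abs_of_pos ht0) k
    have eb := hprop (-t) (by rw [abs_neg, abs_of_pos ht0]) k
    rw [hexp, hexp] at ea eb
    simp only [map_add, map_smul, smul_eq_mul, hφ1] at ea eb
    -- identify the elements
    have i1 : (⟨(k : A) * (k : A) + (k : A) * (k : A), by
        change star ((k : A) * (k : A) + (k : A) * (k : A)) = _
        rw [star_add, star_mul, hk]⟩ : selfAdjoint A) = (2 : ℝ) • conj (k : A) 1 := by
      apply Subtype.ext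
      change (k : A) * (k : A) + (k : A) * (k : A) = (2 : ℝ) • (star (k : A) * (1 : A) * (k : A))
      rw [hk, mul_one, two_smul]
    have i2 : (⟨(k : A) * ((1 : selfAdjoint A) : A) + ((1 : selfAdjoint A) : A) * (k : A), by
        change star ((k : A) * (1 : A) + (1 : A) * (k : A)) = _
        rw [star_add, star_mul, star_mul, hk, star_one, add_comm]; rfl⟩ : selfAdjoint A) =
          (2 : ℝ) • k := by
      apply Subtype.ext
      change (k : A) * (1 : A) + (1 : A) * (k : A) = (2 : ℝ) • (k : A)
      rw [mul_one, one_mul, two_smul]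
    rw [i1, i2] at ea eb
    simp only [map_smul, smul_eq_mul] at ea eb
    have h3 : t * (4 * (φ (conj (k : A) 1) - φ k ^ 2)) = 0 := by nlinarith
    rcases mul_eq_zero.1 h3 with h | h
    · exact absurd h ht0.ne'
    · linarith
  -- Cauchy-Schwarz after centring
  set k' : selfAdjoint A := k - φ k • 1 with hk'
  have hk'0 : φ (conj (k' : A) 1) = 0 := by
    rw [hsq, hk', map_sub, map_smul, hφ1]
    simp
  have hcomm : ∀ a : selfAdjoint A, comm k' a = comm k a := by
    intro a
    apply Subtype.ext
    change Complex.I • ((a : A) * ((k : A) - φ k • (1 : A)) - ((k : A) - φ k • (1 : A)) * (a : A)) =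
      Complex.I • ((a : A) * (k : A) - (k : A) * (a : A))
    congr 1
    rw [mul_sub, sub_mul, mul_smul_comm, smul_mul_assoc, mul_one, one_mul]
    abel
  -- positivity of `(k' + i t l)^* (k' + i t l)`
  have hpos : ∀ t : ℝ, 0 ≤ φ (conj (k' : A) 1) + t ^ 2 * φ (conj (l : A) 1) +
      t * φ (comm k' l) := by
    intro t
    have hk's : star (k' : A) = k' := k'.2
    have hls : star (l : A) = l := l.2
    have h1 : 0 ≤ conj ((k' : A) + ((t : ℂ) * (-Complex.I)) • (l : A)) 1 :=
      conj_nonneg _ (zero_le_one (α := A))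
    have h2 : conj ((k' : A) + ((t : ℂ) * (-Complex.I)) • (l : A)) 1 =
        conj (k' : A) 1 + t ^ 2 • conj (l : A) 1 + t • comm k' l := by
      apply Subtype.ext
      change star ((k' : A) + ((t : ℂ) * (-Complex.I)) • (l : A)) * (1 : A) *
        ((k' : A) + ((t : ℂ) * (-Complex.I)) • (l : A)) = star (k' : A) * (1 : A) * (k' : A) +
          t ^ 2 • (star (l : A) * (1 : A) * (l : A)) +
          t • (Complex.I • ((l : A) * (k' : A) - (k' : A) * (l : A)))
      have hst : star (((t : ℂ) * (-Complex.I)) • (l : A)) = ((t : ℂ) * Complex.I) • (l : A) := by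
        rw [star_smul, hls]
        simp only [Complex.star_def, map_mul, map_neg, Complex.conj_ofReal, Complex.conj_I, neg_neg]
      rw [star_add, hk's, hls, hst]
      have r1 : ∀ (r : ℝ) (x : A), r • x = (r : ℂ) • x := fun r x => (Complex.coe_smul r x).symm
      simp only [r1, add_mul, mul_add, smul_mul_assoc, mul_smul_comm, mul_one, smul_add,
        smul_smul, smul_sub]
      have hI : Complex.I * Complex.I = -1 := Complex.I_mul_I
      have e1 : ((t : ℂ) * -Complex.I) * ((t : ℂ) * Complex.I) = ((t : ℂ) ^ 2) := by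
        have : ((t : ℂ) * -Complex.I) * ((t : ℂ) * Complex.I) =
          -((t : ℂ) ^ 2 * (Complex.I * Complex.I)) := by ring
        rw [this, hI]; ring
      rw [e1]
      push_cast
      module
    rw [h2] at h1
    have h3 := hφ.pos _ h1
    simpa only [map_add, map_smul, smul_eq_mul] using h3
  rw [← hcomm, ]
  rw [hk'0] at hpos
  by_contra hcon
  set c := φ (comm k' l) with hc
  set q := φ (conj (l : A) 1) with hq
  have hq0 : 0 ≤ q := hφ.pos _ (conj_nonneg _ (zero_le_one (α := A)))
  have h1 := hpos (-(c / (q + 1)))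
  have h2 : (0 : ℝ) + (-(c / (q + 1))) ^ 2 * q + -(c / (q + 1)) * c =
      -(c ^ 2 / (q + 1) ^ 2) := by
    field_simp
    ring
  rw [h2] at h1
  have h3 : 0 < c ^ 2 / (q + 1) ^ 2 := by positivity
  linarith

/-- conclusion: the algebra is commutative. -/
theorem commutative_of_coneIso {ι : G → selfAdjoint A} (hι : ConeIso (1 : selfAdjoint A) ι)
    (x y : A) : x * y = y * x := by
  have hu := ordUnit_one (A := A)
  -- an element killed by all pure states is `≤ 0`
  have key : ∀ z : selfAdjoint A,
      (∀ φ : selfAdjoint A →ₗ[ℝ] ℝ, IsPure (1 : selfAdjoint A) φ → φ 1 = 1 → φ z = 0) → z ≤ 0 := by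
    intro z hz
    have h1 : ∀ ε : ℝ, 0 < ε → (z : A) ≤ algebraMap ℝ A ε := by
      intro ε hε
      by_contra hcon
      obtain ⟨φ, hφ, hφ1, h2⟩ := exists_pure hu (D := {ε • (1 : selfAdjoint A)})
        (Set.singleton_nonempty _) (by
          rintro _ rfl _ rfl
          exact ⟨_, rfl, le_refl _, le_refl _⟩) (b := z) (by
          rintro _ rfl hle
          apply hcon
          rw [Algebra.algebraMap_eq_smul_one]
          exact hle)
      have h3 := h2 _ rfl
      rw [map_smul, hφ1, hz φ hφ hφ1, smul_eq_mul] at h3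
      linarith
    change (z : A) ≤ 0
    have h2 : Filter.Tendsto (fun ε : ℝ => algebraMap ℝ A ε) (nhdsWithin 0 (Set.Ioi 0))
        (nhds (algebraMap ℝ A 0)) :=
      ((continuous_algebraMap ℝ A).tendsto 0).mono_left nhdsWithin_le_nhds
    rw [map_zero] at h2
    refine ge_of_tendsto h2 ?_
    filter_upwards [self_mem_nhdsWithin] with ε hε
    exact h1 ε hε
  have hsa : ∀ k l : selfAdjoint A, (k : A) * (l : A) = (l : A) * (k : A) := by
    intro k l
    have h1 := key (comm k l) (fun φ hφ hφ1 => pure_comm_eq_zero hι hφ hφ1 k l)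
    have h2 := key (comm l k) (fun φ hφ hφ1 => pure_comm_eq_zero hι hφ hφ1 l k)
    have h3 : comm l k = - comm k l := by
      apply Subtype.ext
      change Complex.I • ((k : A) * (l : A) - (l : A) * (k : A)) =
        -(Complex.I • ((l : A) * (k : A) - (k : A) * (l : A)))
      rw [← smul_neg, neg_sub]
    rw [h3] at h2
    have h4 : comm k l = 0 := le_antisymm h1 (neg_nonpos.1 h2)
    have h5 : Complex.I • ((l : A) * (k : A) - (k : A) * (l : A)) = 0 := congrArg Subtype.val h4
    rcases smul_eq_zero.1 h5 with h | h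
    · exact absurd h Complex.I_ne_zero
    · exact (sub_eq_zero.1 h).symm
  have hdec : ∀ x : A, x = (realPart x : A) + Complex.I • (imaginaryPart x : A) := fun x =>
    (realPart_add_I_smul_imaginaryPart x).symm
  rw [hdec x, hdec y]
  simp only [add_mul, mul_add, smul_mul_assoc, mul_smul_comm]
  rw [hsa (realPart x) (realPart y), hsa (realPart x) (imaginaryPart y),
    hsa (imaginaryPart x) (realPart y), hsa (imaginaryPart x) (imaginaryPart y)]
  module

end CStar

end Pool.Agent.H54
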