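import Mathlib

set_option autoImplicit false
set_option linter.unusedSectionVars false

open scoped Pointwise

namespace Pool.Agent.H54

/-- Hahn-Banach: a sublinear functional is attained at a given point by a linear functional. -/
theorem exists_linear_le_sublinear {E : Type*} [AddCommGroup E] [Module ℝ E] (N : E → ℝ)
    (N_hom : ∀ c : ℝ, 0 < c → ∀ x, N (c • x) = c * N x)
    (N_add : ∀ x y, N (x + y) ≤ N x + N y) (z : E) :
    ∃ g : E →ₗ[ℝ] ℝ, g z = N z ∧ ∀ x, g x ≤ N x := by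
  have N_0 : N 0 = 0 := by
    have := N_hom 2 (by norm_num) 0
    rw [smul_zero] at this; linarith
  have H : ∀ c : ℝ, c • z = 0 → (RingHom.id ℝ) c • (N z) = 0 := by
    intro c hc
    rcases smul_eq_zero.1 hc with h | h
    · simp [h]
    · simp [h, N_0]
  obtain ⟨g, hg1, hg⟩ := exists_extension_of_le_sublinear
    (LinearPMap.mkSpanSingleton' z (N z) H) N N_hom N_add (by
    rintro ⟨x, hx⟩
    obtain ⟨r, rfl⟩ := Submodule.mem_span_singleton.1 hx
    rw [LinearPMap.mkSpanSingleton'_apply z (N z) H r hx]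
    simp only [smul_eq_mul, RingHom.id_apply]
    rcases lt_trichotomy r 0 with hr | hr | hr
    · have h1 := N_add (r • z) ((-r) • z)
      rw [← add_smul, add_neg_cancel, zero_smul, N_0, N_hom (-r) (by linarith)] at h1
      linarith
    · subst hr; simp [N_0]
    · rw [N_hom r hr])
  refine ⟨g, ?_, hg⟩
  have := hg1 ⟨z, Submodule.mem_span_singleton_self z⟩
  rw [this]
  exact LinearPMap.mkSpanSingleton'_apply_self z (N z) H _

section OrderUnit

variable {V : Type*} [AddCommGroup V] [Module ℝ V] [PartialOrder V] [IsOrderedAddMonoid V]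
  [PosSMulMono ℝ V]

/-- `u` is an order unit. -/
def OrdUnit (u : V) : Prop := ∀ x : V, ∃ r : ℝ, 0 < r ∧ x ≤ r • u

/-- positive functional -/
def PosFun (φ : V →ₗ[ℝ] ℝ) : Prop := ∀ x, 0 ≤ x → 0 ≤ φ x

/-- pure positive functionals. -/
structure IsPure (u : V) (φ : V →ₗ[ℝ] ℝ) : Prop where
  pos : PosFun φ
  upos : 0 < φ u
  pure : ∀ ψ : V →ₗ[ℝ] ℝ, PosFun ψ → (∀ x, 0 ≤ x → ψ x ≤ φ x) → ∃ r : ℝ, ψ = r • φ

/-- The open positive cone attached to the order unit. -/
def PosCone (u : V) : Set V := {x | ∃ ε : ℝ, 0 < ε ∧ ε • u ≤ x}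

variable {u : V}

theorem OrdUnit.nonneg (hu : OrdUnit u) : 0 ≤ u := by
  obtain ⟨r, hr, h⟩ := hu 0
  have := smul_le_smul_of_nonneg_left h (inv_nonneg.2 hr.le)
  rwa [smul_zero, smul_smul, inv_mul_cancel₀ hr.ne', one_smul] at this

theorem PosFun.mono {φ : V →ₗ[ℝ] ℝ} (h : PosFun φ) {x y : V} (hxy : x ≤ y) : φ x ≤ φ y := by
  have := h (y - x) (sub_nonneg.2 hxy)
  rw [map_sub] at this; linarith

theorem smul_u_mono (hu : OrdUnit u) {r s : ℝ} (h : r ≤ s) : r • u ≤ s • u := by
  have : 0 ≤ (s - r) • u := smul_nonneg (by linarith) hu.nonneg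
  rw [sub_smul] at this
  exact sub_nonneg.1 this

theorem posCone_nonneg (hu : OrdUnit u) {x : V} (hx : x ∈ PosCone u) : 0 ≤ x := by
  obtain ⟨ε, hε, h⟩ := hx
  exact (smul_nonneg hε.le hu.nonneg).trans h

theorem posCone_up {x y : V} (hx : x ∈ PosCone u) (hxy : x ≤ y) : y ∈ PosCone u := by
  obtain ⟨ε, hε, h⟩ := hx
  exact ⟨ε, hε, h.trans hxy⟩

theorem posCone_smul {x : V} (hx : x ∈ PosCone u) {r : ℝ} (hr : 0 < r) : r • x ∈ PosCone u := by
  obtain ⟨ε, hε, h⟩ := hx
  refine ⟨r * ε, by positivity, ?_⟩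
  rw [mul_smul]
  exact smul_le_smul_of_nonneg_left h hr.le

theorem smul_u_mem {r : ℝ} (hr : 0 < r) : r • u ∈ PosCone u := ⟨r, hr, le_refl _⟩

theorem IsPure.apply_pos {φ : V →ₗ[ℝ] ℝ} (hφ : IsPure u φ) {x : V} (hx : x ∈ PosCone u) :
    0 < φ x := by
  obtain ⟨ε, hε, h⟩ := hx
  have h1 := hφ.pos.mono h
  rw [map_smul, smul_eq_mul] at h1
  have := hφ.upos
  have : 0 < ε * φ u := by positivity
  linarith

/-- (K1) for a pure functional the set `φ < lam` is directed upwards. -/
theorem IsPure.directed {φ : V →ₗ[ℝ] ℝ} (hu : OrdUnit u) (hφ : IsPure u φ) {x y : V} {lam : ℝ}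
    (hx : φ x < lam) (hy : φ y < lam) : ∃ c, x ≤ c ∧ y ≤ c ∧ φ c < lam := by
  -- the sublinear functional
  let S : V × V → Set ℝ := fun p => {t | ∃ c, p.1 ≤ c ∧ p.2 ≤ c ∧ φ c = t}
  have hne : ∀ p, (S p).Nonempty := by
    intro p
    obtain ⟨r, hr, h1⟩ := hu p.1
    obtain ⟨s, hs, h2⟩ := hu p.2
    refine ⟨_, (r + s) • u, h1.trans (smul_u_mono hu (by linarith)),
      h2.trans (smul_u_mono hu (by linarith)), rfl⟩
  have hbd : ∀ p, BddBelow (S p) := by
    intro p
    refine ⟨φ p.1, ?_⟩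
    rintro t ⟨c, hc1, -, rfl⟩
    exact hφ.pos.mono hc1
  let N : V × V → ℝ := fun p => sInf (S p)
  have N_hom : ∀ c : ℝ, 0 < c → ∀ p, N (c • p) = c * N p := by
    have key : ∀ c : ℝ, 0 < c → ∀ p, N (c • p) ≤ c * N p := by
      intro c hc p
      have : c * N p = sInf (c • S p) := by
        rw [Real.sInf_smul_of_nonneg hc.le, smul_eq_mul]
      rw [this]
      apply csInf_le_csInf (hbd _)
      · exact (hne p).smul_set
      · rintro _ ⟨t, ⟨d, hd1, hd2, rfl⟩, rfl⟩
        refine ⟨c • d, smul_le_smul_of_nonneg_left hd1 hc.le,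
          smul_le_smul_of_nonneg_left hd2 hc.le, by simp⟩
    intro c hc p
    refine le_antisymm (key c hc p) ?_
    have h2 := key c⁻¹ (inv_pos.2 hc) (c • p)
    rw [smul_smul, inv_mul_cancel₀ hc.ne', one_smul] at h2
    calc c * N p ≤ c * (c⁻¹ * N (c • p)) := by gcongr
      _ = N (c • p) := by field_simp
  have N_add : ∀ p q, N (p + q) ≤ N p + N q := by
    intro p q
    by_contra hcon
    push Not at hcon
    set δ := N (p + q) - (N p + N q) with hδ
    have hδ' : 0 < δ / 2 := by linarith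
    obtain ⟨t, ⟨c, hc1, hc2, rfl⟩, ht⟩ := exists_lt_of_csInf_lt (hne p)
      (show N p < N p + δ / 2 by linarith)
    obtain ⟨t', ⟨d, hd1, hd2, rfl⟩, ht'⟩ := exists_lt_of_csInf_lt (hne q)
      (show N q < N q + δ / 2 by linarith)
    have : N (p + q) ≤ φ (c + d) :=
      csInf_le (hbd _) ⟨c + d, add_le_add hc1 hd1, add_le_add hc2 hd2, rfl⟩
    rw [map_add] at this
    linarith
  obtain ⟨g, hg, hgN⟩ := exists_linear_le_sublinear N N_hom N_add (x, y)
  let σ : V →ₗ[ℝ] ℝ := g.comp (LinearMap.inl ℝ V V)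
  let τ : V →ₗ[ℝ] ℝ := g.comp (LinearMap.inr ℝ V V)
  have hg' : ∀ a b, g (a, b) = σ a + τ b := by
    intro a b
    simp only [σ, τ, LinearMap.comp_apply, LinearMap.inl_apply, LinearMap.inr_apply]
    rw [← map_add]; simp
  have hσ : PosFun σ := by
    intro z hz
    have h1 := hgN (-z, 0)
    have h2 : N (-z, 0) ≤ 0 := by
      apply csInf_le (hbd _)
      exact ⟨0, by simpa using hz, le_refl _, map_zero _⟩
    rw [hg'] at h1
    simp only [map_neg, map_zero, add_zero] at h1
    linarith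
  have hτ : PosFun τ := by
    intro z hz
    have h1 := hgN (0, -z)
    have h2 : N (0, -z) ≤ 0 := by
      apply csInf_le (hbd _)
      exact ⟨0, le_refl _, by simpa using hz, map_zero _⟩
    rw [hg'] at h1
    simp only [map_neg, map_zero, zero_add] at h1
    linarith
  have hsum : ∀ z, σ z + τ z = φ z := by
    have key : ∀ z, σ z + τ z ≤ φ z := by
      intro z
      rw [← hg']
      refine (hgN _).trans (csInf_le (hbd _) ⟨z, le_refl _, le_refl _, rfl⟩)
    intro z
    refine le_antisymm (key z) ?_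
    have := key (-z)
    simp only [map_neg] at this
    linarith
  obtain ⟨r, hr⟩ := hφ.pure σ hσ (by
    intro z hz
    have := hτ z hz
    have := hsum z
    linarith)
  have hr0 : 0 ≤ r := by
    have h1 := hσ u hu.nonneg
    rw [hr] at h1
    simp only [LinearMap.smul_apply, smul_eq_mul] at h1
    exact nonneg_of_mul_nonneg_left h1 hφ.upos
  have hτr : ∀ z, τ z = (1 - r) * φ z := by
    intro z
    have := hsum z
    rw [hr] at this
    simp only [LinearMap.smul_apply, smul_eq_mul] at this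
    linarith
  have hr1 : 0 ≤ 1 - r := by
    have h1 := hτ u hu.nonneg
    rw [hτr] at h1
    exact nonneg_of_mul_nonneg_left h1 hφ.upos
  have hval : N (x, y) < lam := by
    rw [← hg, hg', hτr, hr]
    simp only [LinearMap.smul_apply, smul_eq_mul]
    rcases eq_or_lt_of_le hr0 with h | h
    · rw [← h]; simpa using hy
    · nlinarith
  obtain ⟨t, ⟨c, hc1, hc2, rfl⟩, ht⟩ := exists_lt_of_csInf_lt (hne (x, y)) hval
  exact ⟨c, hc1, hc2, ht⟩

/-- Distinct pure functionals are not comparable on the open cone. -/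
theorem IsPure.eq_smul_of_bounded {φ ψ : V →ₗ[ℝ] ℝ} (hu : OrdUnit u) (hφ : IsPure u φ)
    (hψ : PosFun ψ) {lam M : ℝ} (hlam : 0 < lam)
    (h : ∀ a ∈ PosCone u, φ a < lam → ψ a ≤ M) : ∃ r : ℝ, ψ = r • φ := by
  have hM : 0 ≤ M := by
    have h1 : (lam / 2 / φ u) • u ∈ PosCone u :=
      smul_u_mem (div_pos (by linarith) hφ.upos)
    have h2 := h _ h1 (by
      rw [map_smul, smul_eq_mul, div_mul_cancel₀ _ hφ.upos.ne']; linarith)
    exact (hψ _ (posCone_nonneg hu h1)).trans h2
  set C : ℝ := 2 * (M + 1) / lam with hC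
  have hCpos : 0 < C := by positivity
  have h1 : ∀ a ∈ PosCone u, ψ a ≤ C * φ a := by
    intro a ha
    have hpa := hφ.apply_pos ha
    have h2 := h ((lam / 2 / φ a) • a) (posCone_smul ha (by positivity)) (by
      rw [map_smul, smul_eq_mul, div_mul_cancel₀ _ hpa.ne']; linarith)
    rw [map_smul, smul_eq_mul] at h2
    have h3 : ψ a ≤ M / (lam / 2 / φ a) := by
      rw [le_div_iff₀ (by positivity)]; linarith
    refine h3.trans ?_
    rw [hC, div_le_iff₀ (by positivity)]
    have : 2 * (M + 1) / lam * φ a * (lam / 2 / φ a) = M + 1 := by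
      field_simp
    rw [this]; linarith
  have h2 : ∀ a, 0 ≤ a → ψ a ≤ C * φ a := by
    intro a ha
    have h3 : ∀ ε : ℝ, 0 < ε → ψ a + ε * ψ u ≤ C * φ a + ε * (C * φ u) := by
      intro ε hε
      have := h1 (a + ε • u) ⟨ε, hε, by simpa using ha⟩
      simp only [map_add, map_smul, smul_eq_mul] at this
      linarith
    have hψu : 0 ≤ ψ u := hψ u hu.nonneg
    by_contra hcon
    push Not at hcon
    have hpos : 0 < C * φ u := mul_pos hCpos hφ.upos
    have h4 := h3 ((ψ a - C * φ a) / 2 / (C * φ u)) (by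
      apply div_pos _ hpos; linarith)
    have h5 : (ψ a - C * φ a) / 2 / (C * φ u) * (C * φ u) = (ψ a - C * φ a) / 2 :=
      div_mul_cancel₀ _ hpos.ne'
    have h6 : 0 ≤ (ψ a - C * φ a) / 2 / (C * φ u) * ψ u := by
      apply mul_nonneg _ hψu
      apply div_nonneg _ hpos.le; linarith
    linarith
  obtain ⟨r, hr⟩ := hφ.pure (C⁻¹ • ψ) (by
    intro x hx
    have := hψ x hx
    simp only [LinearMap.smul_apply, smul_eq_mul]
    positivity) (by
    intro x hx
    have := h2 x hx
    simp only [LinearMap.smul_apply, smul_eq_mul]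
    rw [inv_mul_le_iff₀ hCpos]
    exact this)
  refine ⟨C * r, ?_⟩
  rw [mul_smul, ← hr, smul_smul, mul_inv_cancel₀ hCpos.ne', one_smul]

/-- the states, as a set of functions -/
def StateSet (u : V) : Set (V → ℝ) :=
  {f | (∀ x y, f (x + y) = f x + f y) ∧ (∀ (r : ℝ) x, f (r • x) = r * f x) ∧
    (∀ x, 0 ≤ x → 0 ≤ f x) ∧ f u = 1}

/-- a state as a linear functional -/
def StateSet.toLin {f : V → ℝ} (hf : f ∈ StateSet u) : V →ₗ[ℝ] ℝ where
  toFun := f
  map_add' := hf.1
  map_smul' := by intro r x; simpa using hf.2.1 r x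

theorem StateSet.toLin_apply {f : V → ℝ} (hf : f ∈ StateSet u) (x : V) :
    StateSet.toLin hf x = f x := rfl

theorem StateSet.toLin_pos {f : V → ℝ} (hf : f ∈ StateSet u) : PosFun (StateSet.toLin hf) :=
  hf.2.2.1

theorem stateSet_of_pos {φ : V →ₗ[ℝ] ℝ} (hφ : PosFun φ) (h : φ u = 1) :
    (fun x => φ x) ∈ StateSet u :=
  ⟨map_add φ, by intro r x; simp, hφ, h⟩

theorem isClosed_stateSet : IsClosed (StateSet u) := by
  have h1 : IsClosed {f : V → ℝ | ∀ x y, f (x + y) = f x + f y} := by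
    simp only [Set.ofPred_forall]
    refine isClosed_iInter fun x => isClosed_iInter fun y => ?_
    exact isClosed_eq (continuous_apply _) (by fun_prop)
  have h2 : IsClosed {f : V → ℝ | ∀ (r : ℝ) x, f (r • x) = r * f x} := by
    simp only [Set.ofPred_forall]
    refine isClosed_iInter fun x => isClosed_iInter fun y => ?_
    exact isClosed_eq (continuous_apply _) (by fun_prop)
  have h3 : IsClosed {f : V → ℝ | ∀ x, 0 ≤ x → 0 ≤ f x} := by
    simp only [Set.ofPred_forall]
    refine isClosed_iInter fun x => isClosed_iInter fun _ => ?_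
    exact isClosed_le continuous_const (continuous_apply _)
  have h4 : IsClosed {f : V → ℝ | f u = 1} :=
    isClosed_eq (continuous_apply _) continuous_const
  exact h1.inter (h2.inter (h3.inter h4))

theorem isCompact_stateSet (hu : OrdUnit u) : IsCompact (StateSet u) := by
  choose N hN0 hN using hu
  have h1 : IsCompact (Set.pi Set.univ (fun x : V => Set.Icc (-(N (-x))) (N x))) :=
    isCompact_univ_pi fun x => isCompact_Icc
  refine h1.of_isClosed_subset isClosed_stateSet ?_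
  intro f hf x _
  have hp := StateSet.toLin_pos hf
  have e1 := hp.mono (hN x)
  have e2 := hp.mono (hN (-x))
  have hu1 : f u = 1 := hf.2.2.2
  simp only [map_smul, map_neg, StateSet.toLin_apply, hu1, smul_eq_mul, mul_one] at e1 e2
  exact ⟨by linarith, e1⟩

theorem posFun_eq_zero {φ : V →ₗ[ℝ] ℝ} (hu : OrdUnit u) (hφ : PosFun φ) (h : φ u = 0) :
    φ = 0 := by
  ext x
  obtain ⟨r, hr, h1⟩ := hu x
  obtain ⟨s, hs, h2⟩ := hu (-x)
  have e1 := hφ.mono h1
  have e2 := hφ.mono h2
  simp only [map_smul, map_neg, h, smul_zero] at e1 e2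
  simp only [LinearMap.zero_apply]
  linarith

theorem isPure_of_extreme (hu : OrdUnit u) {f : V → ℝ}
    (hf : f ∈ Set.extremePoints ℝ (StateSet u)) : IsPure u (StateSet.toLin hf.1) := by
  refine ⟨StateSet.toLin_pos hf.1, ?_, ?_⟩
  · rw [StateSet.toLin_apply, hf.1.2.2.2]; exact one_pos
  intro ψ hψ hle
  set φ := StateSet.toLin hf.1 with hφ
  have hφu : φ u = 1 := hf.1.2.2.2
  have hs0 : 0 ≤ ψ u := hψ u hu.nonneg
  have hs1 : ψ u ≤ 1 := by have := hle u hu.nonneg; rwa [hφu] at this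
  have hdiff : PosFun (φ - ψ) := by
    intro x hx
    have := hle x hx
    simp only [LinearMap.sub_apply]; linarith
  rcases eq_or_lt_of_le hs0 with h0 | h0
  · exact ⟨0, by rw [posFun_eq_zero hu hψ h0.symm, zero_smul]⟩
  rcases eq_or_lt_of_le hs1 with h1 | h1
  · refine ⟨1, ?_⟩
    have := posFun_eq_zero hu hdiff (by simp [hφu, h1])
    rw [one_smul]; exact (sub_eq_zero.1 this).symm
  have h1' : 0 < 1 - ψ u := by linarith
  have m1 : (fun x => ((ψ u)⁻¹ • ψ) x) ∈ StateSet u := by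
    apply stateSet_of_pos
    · intro x hx
      have := hψ x hx
      simp only [LinearMap.smul_apply, smul_eq_mul]; positivity
    · simp only [LinearMap.smul_apply, smul_eq_mul]; exact inv_mul_cancel₀ h0.ne'
  have m2 : (fun x => ((1 - ψ u)⁻¹ • (φ - ψ)) x) ∈ StateSet u := by
    apply stateSet_of_pos
    · intro x hx
      have := hdiff x hx
      simp only [LinearMap.smul_apply, smul_eq_mul]; positivity
    · simp only [LinearMap.smul_apply, smul_eq_mul, LinearMap.sub_apply, hφu]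
      exact inv_mul_cancel₀ h1'.ne'
  have h2 := hf.2 m1 m2 (by
    refine ⟨ψ u, 1 - ψ u, h0, h1', by ring, ?_⟩
    ext x
    simp only [LinearMap.smul_apply, smul_eq_mul, LinearMap.sub_apply, Pi.add_apply,
      Pi.smul_apply]
    rw [← mul_assoc, ← mul_assoc, mul_inv_cancel₀ h0.ne', mul_inv_cancel₀ h1'.ne']
    have : φ x = f x := rfl
    rw [← this]; ring)
  refine ⟨ψ u, ?_⟩
  ext x
  have h3 := congrFun h2 x
  simp only [LinearMap.smul_apply, smul_eq_mul] at h3
  have : φ x = f x := rfl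
  simp only [LinearMap.smul_apply, smul_eq_mul]
  rw [this, ← h3, ← mul_assoc, mul_inv_cancel₀ h0.ne', one_mul]

/-- (B) Given a directed set `D` and `b` not below any member of `D`, there is a pure state
`φ` with `φ ≤ φ b` on `D`. -/
theorem exists_pure (hu : OrdUnit u) {D : Set V} (hD : D.Nonempty)
    (hdir : DirectedOn (· ≤ ·) D) {b : V} (hb : ∀ a ∈ D, ¬ b ≤ a) :
    ∃ φ : V →ₗ[ℝ] ℝ, IsPure u φ ∧ φ u = 1 ∧ ∀ a ∈ D, φ a ≤ φ b := by
  let F : ℝ → Set (V → ℝ) := fun r => StateSet u ∩ {f | ∀ a ∈ D, f a - f b ≤ r}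
  have hclosed : ∀ r, IsClosed {f : V → ℝ | ∀ a ∈ D, f a - f b ≤ r} := by
    intro r
    simp only [Set.ofPred_forall]
    refine isClosed_iInter fun x => isClosed_iInter fun _ => ?_
    exact isClosed_le (by fun_prop) continuous_const
  have hFclosed : ∀ r, IsClosed (F r) := fun r => isClosed_stateSet.inter (hclosed r)
  have hFcompact : ∀ r, IsCompact (F r) := fun r =>
    (isCompact_stateSet hu).inter_right (hclosed r)
  -- each single constraint is satisfiable
  have hone : ∀ a ∈ D, ∃ f ∈ StateSet u, f a - f b ≤ 0 := by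
    intro a ha
    let S : V → Set ℝ := fun x => {t | x ≤ t • u}
    have hne : ∀ x, (S x).Nonempty := fun x => by
      obtain ⟨r, hr, h⟩ := hu x
      exact ⟨r, h⟩
    have hu0 : ¬ u ≤ 0 := by
      intro h
      have h0 : u = 0 := le_antisymm h hu.nonneg
      obtain ⟨r, hr, h1⟩ := hu (b - a)
      rw [h0, smul_zero, sub_nonpos] at h1
      exact hb a ha h1
    have hsu : ∀ t : ℝ, (0 : V) ≤ t • u → 0 ≤ t := by
      intro t ht
      by_contra hcon
      push Not at hcon
      apply hu0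
      have := smul_le_smul_of_nonneg_left ht (inv_nonneg.2 (neg_nonneg.2 hcon.le))
      rw [smul_zero, smul_smul] at this
      have e : (-t)⁻¹ * t = -1 := by
        rw [inv_neg, neg_mul, inv_mul_cancel₀ hcon.ne]
      rw [e, neg_smul, one_smul] at this
      exact neg_nonneg.1 this
    have hbd : ∀ x, BddBelow (S x) := fun x => by
      obtain ⟨r, hr, h⟩ := hu (-x)
      refine ⟨-r, fun t ht => ?_⟩
      have h1 : (0 : V) ≤ (t + r) • u := by
        rw [add_smul]
        have := add_le_add ht h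
        simpa using this
      have := hsu _ h1
      linarith
    let N : V → ℝ := fun x => sInf (S x)
    have key : ∀ c : ℝ, 0 < c → ∀ p, N (c • p) ≤ c * N p := by
      intro c hc p
      have : c * N p = sInf (c • S p) := by
        rw [Real.sInf_smul_of_nonneg hc.le, smul_eq_mul]
      rw [this]
      apply csInf_le_csInf (hbd _)
      · exact (hne p).smul_set
      · rintro _ ⟨t, ht, rfl⟩
        change c • p ≤ (c • t) • u
        rw [smul_assoc]
        exact smul_le_smul_of_nonneg_left ht hc.le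
    have N_hom : ∀ c : ℝ, 0 < c → ∀ p, N (c • p) = c * N p := by
      intro c hc p
      refine le_antisymm (key c hc p) ?_
      have h2 := key c⁻¹ (inv_pos.2 hc) (c • p)
      rw [smul_smul, inv_mul_cancel₀ hc.ne', one_smul] at h2
      calc c * N p ≤ c * (c⁻¹ * N (c • p)) := by gcongr
        _ = N (c • p) := by field_simp
    have N_add : ∀ p q, N (p + q) ≤ N p + N q := by
      intro p q
      by_contra hcon
      push Not at hcon
      set δ := N (p + q) - (N p + N q) with hδ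
      have hδ' : 0 < δ / 2 := by linarith
      obtain ⟨t, ht1, ht⟩ := exists_lt_of_csInf_lt (hne p)
        (show N p < N p + δ / 2 by linarith)
      obtain ⟨t', ht1', ht'⟩ := exists_lt_of_csInf_lt (hne q)
        (show N q < N q + δ / 2 by linarith)
      have : N (p + q) ≤ t + t' := by
        apply csInf_le (hbd _)
        change p + q ≤ (t + t') • u
        rw [add_smul]
        exact add_le_add ht1 ht1'
      linarith
    obtain ⟨g, hg, hgN⟩ := exists_linear_le_sublinear N N_hom N_add (b - a)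
    have hpos : PosFun g := by
      intro x hx
      have h1 := hgN (-x)
      have h2 : N (-x) ≤ 0 := by
        apply csInf_le (hbd _)
        change -x ≤ (0 : ℝ) • u
        simpa using hx
      rw [map_neg] at h1
      linarith
    have h1 : g u = 1 := by
      have e1 := hgN u
      have e2 : N u ≤ 1 := csInf_le (hbd _) (by change u ≤ (1 : ℝ) • u; simp)
      have e3 := hgN (-u)
      have e4 : N (-u) ≤ -1 := csInf_le (hbd _) (by change -u ≤ (-1 : ℝ) • u; simp)
      rw [map_neg] at e3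
      linarith
    refine ⟨fun x => g x, stateSet_of_pos hpos h1, ?_⟩
    have h2 : 0 ≤ N (b - a) := by
      apply le_csInf (hne _)
      intro t ht
      by_contra hcon
      push Not at hcon
      apply hb a ha
      have h3 : b - a ≤ 0 := ht.trans (by
        have := smul_u_mono hu hcon.le
        rwa [zero_smul] at this)
      exact sub_nonpos.1 h3
    rw [← hg, map_sub] at h2
    simp only
    linarith
  have hF0 : (F 0).Nonempty := by
    have : Nonempty D := hD.to_subtype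
    have := IsCompact.nonempty_iInter_of_directed_nonempty_isCompact_isClosed
      (fun a : D => StateSet u ∩ {f : V → ℝ | f a.1 - f b ≤ 0}) (by
        intro a a'
        obtain ⟨c, hc, h1, h2⟩ := hdir a.1 a.2 a'.1 a'.2
        refine ⟨⟨c, hc⟩, ?_, ?_⟩
        · rintro f ⟨hf1, hf2⟩
          refine ⟨hf1, ?_⟩
          have := (StateSet.toLin_pos hf1).mono h1
          simp only [StateSet.toLin_apply] at this
          simp only [Set.mem_ofPred_eq] at hf2 ⊢
          linarith
        · rintro f ⟨hf1, hf2⟩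
          refine ⟨hf1, ?_⟩
          have := (StateSet.toLin_pos hf1).mono h2
          simp only [StateSet.toLin_apply] at this
          simp only [Set.mem_ofPred_eq] at hf2 ⊢
          linarith)
      (by
        rintro ⟨a, ha⟩
        obtain ⟨f, hf, h⟩ := hone a ha
        exact ⟨f, hf, h⟩)
      (fun a => (isCompact_stateSet hu).inter_right
        (isClosed_le (by fun_prop) continuous_const))
      (fun a => isClosed_stateSet.inter
        (isClosed_le (by fun_prop) continuous_const))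
    obtain ⟨f, hf⟩ := this
    rw [Set.mem_iInter] at hf
    obtain ⟨a0, ha0⟩ := hD
    exact ⟨f, (hf ⟨a0, ha0⟩).1, fun a ha => (hf ⟨a, ha⟩).2⟩
  let R : Set ℝ := {r | (F r).Nonempty}
  have hRne : R.Nonempty := ⟨0, hF0⟩
  have hRbd : BddBelow R := by
    obtain ⟨a0, ha0⟩ := hD
    obtain ⟨r0, hr0, h⟩ := hu (b - a0)
    refine ⟨-r0, ?_⟩
    rintro r ⟨f, hf1, hf2⟩
    have h1 := (StateSet.toLin_pos hf1).mono h
    have hu1 : f u = 1 := hf1.2.2.2
    simp only [map_sub, map_smul, StateSet.toLin_apply, hu1, smul_eq_mul, mul_one] at h1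
    have h2 := hf2 a0 ha0
    linarith
  set m := sInf R with hm
  have hFm : (F m).Nonempty := by
    have := IsCompact.nonempty_iInter_of_sequence_nonempty_isCompact_isClosed
      (fun n : ℕ => F (m + 1 / ((n : ℝ) + 1)))
      (by
        intro n f hf
        refine ⟨hf.1, fun a ha => (hf.2 a ha).trans ?_⟩
        have : (1 : ℝ) / (((n + 1 : ℕ) : ℝ) + 1) ≤ 1 / ((n : ℝ) + 1) := by
          apply one_div_le_one_div_of_le (by positivity)
          push_cast; linarith
        linarith)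
      (by
        intro n
        obtain ⟨r, ⟨f, hf1, hf2⟩, hr⟩ := exists_lt_of_csInf_lt hRne
          (show sInf R < m + 1 / ((n : ℝ) + 1) by
            have : (0 : ℝ) < 1 / ((n : ℝ) + 1) := by positivity
            linarith)
        exact ⟨f, hf1, fun a ha => (hf2 a ha).trans hr.le⟩)
      (hFcompact _) (fun n => hFclosed _)
    obtain ⟨f, hf⟩ := this
    rw [Set.mem_iInter] at hf
    refine ⟨f, (hf 0).1, fun a ha => ?_⟩
    apply le_of_forall_pos_le_add
    intro ε hε
    obtain ⟨n, hn⟩ := exists_nat_one_div_lt hε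
    have := (hf n).2 a ha
    linarith
  have hm0 : m ≤ 0 := csInf_le hRbd hF0
  have hext : IsExtreme ℝ (StateSet u) (F m) := by
    refine ⟨fun f hf => hf.1, ?_⟩
    rintro x hx y hy z hz ⟨α, β, hα, hβ, hαβ, rfl⟩
    refine ⟨hx, ?_⟩
    by_contra hcon
    simp only [Set.mem_ofPred_eq] at hcon
    push Not at hcon
    obtain ⟨a1, ha1, h1⟩ := hcon
    set ε := x a1 - x b - m with hε
    have hεpos : 0 < ε := by linarith
    have hδ : 0 < α * ε / (2 * β) := by positivity
    have hy' : ¬ (y ∈ F (m - α * ε / (2 * β))) := by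
      intro h
      have : m ≤ m - α * ε / (2 * β) := csInf_le hRbd ⟨y, h⟩
      linarith
    have hy'' : ∃ a2 ∈ D, m - α * ε / (2 * β) < y a2 - y b := by
      by_contra hcon2
      push Not at hcon2
      exact hy' ⟨hy, hcon2⟩
    obtain ⟨a2, ha2, h2⟩ := hy''
    obtain ⟨a, ha, e1, e2⟩ := hdir a1 ha1 a2 ha2
    have h3 := (StateSet.toLin_pos hx).mono e1
    have h4 := (StateSet.toLin_pos hy).mono e2
    simp only [StateSet.toLin_apply] at h3 h4
    have h5 := hz.2 a ha
    simp only [Pi.add_apply, Pi.smul_apply, smul_eq_mul] at h5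
    have h6 : α * x a ≥ α * (m + ε + x b) := by
      apply mul_le_mul_of_nonneg_left _ hα.le; linarith
    have h7 : β * y a ≥ β * (m - α * ε / (2 * β) + y b) := by
      apply mul_le_mul_of_nonneg_left _ hβ.le; linarith
    have h8 : β * (α * ε / (2 * β)) = α * ε / 2 := by field_simp
    have h9 : 0 < α * ε := by positivity
    have h10 : α * m + β * m = m := by rw [← add_mul, hαβ, one_mul]
    nlinarith
  obtain ⟨f, hf⟩ := (hFcompact m).extremePoints_nonempty hFm
  have hf' := hext.extremePoints_subset_extremePoints hf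
  refine ⟨StateSet.toLin hf'.1, isPure_of_extreme hu hf', hf'.1.2.2.2, ?_⟩
  intro a ha
  have := hf.1.2 a ha
  simp only [StateSet.toLin_apply]
  linarith

/-! ### ordered commutative group structures on the open cone -/

variable {G : Type*} [AddCommGroup G] [PartialOrder G] [IsOrderedAddMonoid G]

/-- `ι` identifies the ordered group `G` with the open cone. -/
structure ConeIso (u : V) (ι : G → V) : Prop where
  le_iff : ∀ g h, ι g ≤ ι h ↔ g ≤ h
  mem : ∀ g, ι g ∈ PosCone u
  surj : ∀ x ∈ PosCone u, ∃ g, ι g = x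

theorem ConeIso.exists_ge {ι : G → V} (hι : ConeIso u ι) (hu : OrdUnit u) (g h : G) :
    ∃ d, g ≤ d ∧ h ≤ d := by
  obtain ⟨r, hr, h1⟩ := hu (ι g)
  obtain ⟨s, hs, h2⟩ := hu (ι h)
  obtain ⟨d, hd⟩ := hι.surj ((r + s) • u) (smul_u_mem (by linarith))
  refine ⟨d, (hι.le_iff _ _).1 ?_, (hι.le_iff _ _).1 ?_⟩
  · rw [hd]; exact h1.trans (smul_u_mono hu (by linarith))
  · rw [hd]; exact h2.trans (smul_u_mono hu (by linarith))

/-- the translated ideal `{x | φ (ι (x - c)) < lam}` -/
def ideal (ι : G → V) (φ : V →ₗ[ℝ] ℝ) (lam : ℝ) (c : G) : Set V :=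
  ι '' {x | φ (ι (x - c)) < lam}

theorem ideal_directed {ι : G → V} (hι : ConeIso u ι) (hu : OrdUnit u) {φ : V →ₗ[ℝ] ℝ}
    (hφ : IsPure u φ) (lam : ℝ) (c : G) : DirectedOn (· ≤ ·) (ideal ι φ lam c) := by
  rintro _ ⟨x, hx, rfl⟩ _ ⟨y, hy, rfl⟩
  obtain ⟨z, h1, h2, h3⟩ := hφ.directed hu hx hy
  obtain ⟨w, rfl⟩ := hι.surj z (posCone_up (hι.mem _) h1)
  refine ⟨ι (w + c), ⟨w + c, ?_, rfl⟩, ?_, ?_⟩
  · simpa using h3
  · rw [hι.le_iff] at h1 ⊢
    exact sub_le_iff_le_add.1 h1
  · rw [hι.le_iff] at h2 ⊢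
    exact sub_le_iff_le_add.1 h2

theorem ideal_nonempty {ι : G → V} (hι : ConeIso u ι) {φ : V →ₗ[ℝ] ℝ}
    (hφ : IsPure u φ) {lam : ℝ} (hlam : 0 < lam) (c : G) : (ideal ι φ lam c).Nonempty := by
  obtain ⟨w, hw⟩ := hι.surj ((lam / 2 / φ u) • u) (smul_u_mem (div_pos (by linarith) hφ.upos))
  refine ⟨ι (w + c), w + c, ?_, rfl⟩
  simp only [Set.mem_ofPred_eq, add_sub_cancel_right, hw, map_smul, smul_eq_mul]
  rw [div_mul_cancel₀ _ hφ.upos.ne']; linarith

theorem ideal_down {ι : G → V} (hι : ConeIso u ι) {φ : V →ₗ[ℝ] ℝ}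
    (hφ : IsPure u φ) {lam : ℝ} {c : G} {x y : G} (hxy : x ≤ y)
    (hy : φ (ι (y - c)) < lam) : φ (ι (x - c)) < lam := by
  refine lt_of_le_of_lt (hφ.pos.mono ?_) hy
  rw [hι.le_iff]; exact sub_le_sub_right hxy c

/-- a point outside a translated ideal is not dominated by a member of it, hence (B) applies. -/
theorem ideal_exists_pure {ι : G → V} (hι : ConeIso u ι) (hu : OrdUnit u) {φ : V →ₗ[ℝ] ℝ}
    (hφ : IsPure u φ) {lam : ℝ} (hlam : 0 < lam) {c y : G} (hy : lam ≤ φ (ι (y - c))) :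
    ∃ ψ : V →ₗ[ℝ] ℝ, IsPure u ψ ∧ ∀ x, φ (ι (x - c)) < lam → ψ (ι x) ≤ ψ (ι y) := by
  obtain ⟨ψ, h1, -, h2⟩ := exists_pure hu (ideal_nonempty hι hφ hlam c)
    (ideal_directed hι hu hφ lam c) (b := ι y) (by
      rintro _ ⟨x, hx, rfl⟩ hle
      rw [hι.le_iff] at hle
      have := ideal_down hι hφ hle hx
      linarith)
  exact ⟨ψ, h1, fun x hx => h2 _ ⟨x, hx, rfl⟩⟩

/-- (E) -/
theorem eq_smul_of_ideal_bounded {ι : G → V} (hι : ConeIso u ι) (hu : OrdUnit u)
    {φ ψ : V →ₗ[ℝ] ℝ} (hφ : IsPure u φ) (hψ : IsPure u ψ) {lam M : ℝ} (hlam : 0 < lam) (c : G)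
    (h : ∀ x, φ (ι (x - c)) < lam → ψ (ι x) ≤ M) : ∃ r : ℝ, 0 < r ∧ ψ = r • φ := by
  obtain ⟨d, hd0, hdc⟩ := hι.exists_ge hu 0 (-c)
  -- the ideal `ψ (ι (x - d)) < M'`
  set M' := max M 1 + 1 with hM'
  have hM'pos : 0 < M' := by
    have : (1 : ℝ) ≤ max M 1 := le_max_right _ _
    linarith
  -- a point outside
  obtain ⟨w, hw⟩ := hι.surj ((M' / ψ u) • u) (smul_u_mem (div_pos hM'pos hψ.upos))
  obtain ⟨χ, hχ, hχ2⟩ := ideal_exists_pure hι hu hψ hM'pos (c := d) (y := w + d) (by
    rw [add_sub_cancel_right, hw, map_smul, smul_eq_mul, div_mul_cancel₀ _ hψ.upos.ne'])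
  obtain ⟨r1, hr1⟩ := hψ.eq_smul_of_bounded hu hχ.pos hM'pos (M := χ (ι (w + d))) (by
    intro a ha hlt
    obtain ⟨g, rfl⟩ := hι.surj a ha
    apply hχ2
    refine lt_of_le_of_lt (hψ.pos.mono ?_) hlt
    rw [hι.le_iff]; exact sub_le_self g hd0)
  obtain ⟨r2, hr2⟩ := hφ.eq_smul_of_bounded hu hχ.pos hlam (M := χ (ι (w + d))) (by
    intro a ha hlt
    obtain ⟨g, rfl⟩ := hι.surj a ha
    apply hχ2
    have h1 := h (g + c) (by rwa [add_sub_cancel_right])
    have h2 : ψ (ι (g - d)) ≤ ψ (ι (g + c)) := by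
      apply hψ.pos.mono
      rw [hι.le_iff, sub_le_iff_le_add, add_assoc]
      have : 0 ≤ c + d := by
        have := add_le_add_right hdc c
        simpa using this
      exact le_add_of_nonneg_right this
    have h3 : M ≤ max M 1 := le_max_left _ _
    linarith)
  have hr1pos : 0 < r1 := by
    have := hχ.upos
    rw [hr1] at this
    simp only [LinearMap.smul_apply, smul_eq_mul] at this
    exact pos_of_mul_pos_left this hψ.upos.le
  have hr2pos : 0 < r2 := by
    have := hχ.upos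
    rw [hr2] at this
    simp only [LinearMap.smul_apply, smul_eq_mul] at this
    exact pos_of_mul_pos_left this hφ.upos.le
  refine ⟨r1⁻¹ * r2, by positivity, ?_⟩
  rw [mul_smul, ← hr2, hr1, smul_smul, inv_mul_cancel₀ hr1pos.ne', one_smul]

/-- (F) pure functionals are almost order preserving under translations. -/
theorem shift_mono {ι : G → V} (hι : ConeIso u ι) (hu : OrdUnit u) {φ : V →ₗ[ℝ] ℝ}
    (hφ : IsPure u φ) {g h : G} (c : G) (hlt : φ (ι g) < φ (ι h)) :
    φ (ι (g + c)) ≤ φ (ι (h + c)) := by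
  have hlam : 0 < φ (ι h) := hφ.apply_pos (hι.mem h)
  obtain ⟨ψ, hψ, hψ2⟩ := ideal_exists_pure hι hu hφ hlam (c := c) (y := h + c) (by
    rw [add_sub_cancel_right])
  obtain ⟨r, hr, rfl⟩ := eq_smul_of_ideal_bounded hι hu hφ hψ hlam c hψ2
  have := hψ2 (g + c) (by rwa [add_sub_cancel_right])
  simp only [LinearMap.smul_apply, smul_eq_mul] at this
  exact le_of_mul_le_mul_left this hr

/-- two non proportional pure functionals can be separated: `φ a = t` and `ψ a < η`. -/
theorem exists_conc {φ ψ : V →ₗ[ℝ] ℝ} (hu : OrdUnit u) (hφ : IsPure u φ) (hψ : IsPure u ψ)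
    (hne : ¬ ∃ r : ℝ, φ = r • ψ) {t η : ℝ} (ht : 0 < t) (hη : 0 < η) :
    ∃ a ∈ PosCone u, φ a = t ∧ ψ a < η := by
  by_contra hcon
  push Not at hcon
  apply hne
  refine hψ.eq_smul_of_bounded hu hφ.pos hη (M := t) ?_
  intro a ha hlt
  by_contra h
  push Not at h
  have hpa := hφ.apply_pos ha
  have h1 : φ ((t / φ a) • a) = t := by
    rw [map_smul, smul_eq_mul, div_mul_cancel₀ _ hpa.ne']
  have h2 := hcon _ (posCone_smul ha (div_pos ht hpa)) h1
  rw [map_smul, smul_eq_mul] at h2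
  have h3 : t / φ a < 1 := by rw [div_lt_one hpa]; exact h
  have h4 := hψ.apply_pos ha
  nlinarith

/-- (G) -/
theorem compare {ι : G → V} (hι : ConeIso u ι) (hu : OrdUnit u)
    {f0 f1 fp fm : V →ₗ[ℝ] ℝ} (h0 : IsPure u f0) (h1 : IsPure u f1) (hp : IsPure u fp)
    (hm : IsPure u fm) (hsum : ∀ x, fp x + fm x = 2 * (f0 x + f1 x))
    (hcsp : ∀ a ∈ PosCone u, |fp a - f0 a - f1 a| ≤ 2 * Real.sqrt (f0 a * f1 a))
    (hcsm : ∀ a ∈ PosCone u, |fm a - f0 a - f1 a| ≤ 2 * Real.sqrt (f0 a * f1 a))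
    (hne : ¬ ∃ r : ℝ, f0 = r • f1) (hne' : ¬ ∃ r : ℝ, f1 = r • f0)
    {a b : G} (c : G) (hlt : f0 (ι a) < f1 (ι b)) : f0 (ι (a + c)) ≤ f1 (ι (b + c)) := by
  apply le_of_forall_pos_le_add
  intro δ hδ
  -- the element `x` with `f0 (ι (x + c)) = δ`
  obtain ⟨y, hy⟩ := hι.surj ((δ / f0 u) • u) (smul_u_mem (div_pos hδ h0.upos))
  set x := y - c with hx
  have hxc : f0 (ι (x + c)) = δ := by
    rw [hx, sub_add_cancel, hy, map_smul, smul_eq_mul, div_mul_cancel₀ _ h0.upos.ne']
  have hx0 : 0 < f0 (ι x) := h0.apply_pos (hι.mem x)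
  have hapos : 0 < f0 (ι a) := h0.apply_pos (hι.mem a)
  set A := f0 (ι a) with hA
  set B := f1 (ι b) with hB
  set W := (A + B) / 2 with hW
  set t1 := (A + W) / 2 with ht1
  set t2 := (W + B) / 2 with ht2
  have hAt1 : A < t1 := by rw [ht1, hW]; linarith
  have ht1W : t1 < W := by rw [ht1, hW]; linarith
  have hWt2 : W < t2 := by rw [ht2, hW]; linarith
  have ht2B : t2 < B := by rw [ht2, hW]; linarith
  have ht1pos : 0 < t1 := by linarith
  have ht2pos : 0 < t2 := by linarith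
  -- choose small `η1` with `t1 + η1 + 2 √(t1 η1) < W`
  have hcont1 : ∃ η : ℝ, 0 < η ∧ t1 + η + 2 * Real.sqrt (t1 * η) < W := by
    have hc : Filter.Tendsto (fun η : ℝ => t1 + η + 2 * Real.sqrt (t1 * η))
        (nhdsWithin 0 (Set.Ioi 0)) (nhds (t1 + 0 + 2 * Real.sqrt (t1 * 0))) := by
      apply Filter.Tendsto.mono_left _ nhdsWithin_le_nhds
      apply Continuous.tendsto
      fun_prop
    simp only [mul_zero, Real.sqrt_zero, add_zero] at hc
    have h1 := hc.eventually (gt_mem_nhds ht1W)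
    obtain ⟨η, hη1, hη2⟩ := (h1.and self_mem_nhdsWithin).exists
    exact ⟨η, hη2, hη1⟩
  have hcont2 : ∃ η : ℝ, 0 < η ∧ W < t2 - 2 * Real.sqrt (t2 * η) ∧ η < f0 (ι x) := by
    have hc : Filter.Tendsto (fun η : ℝ => t2 - 2 * Real.sqrt (t2 * η))
        (nhdsWithin 0 (Set.Ioi 0)) (nhds (t2 - 2 * Real.sqrt (t2 * 0))) := by
      apply Filter.Tendsto.mono_left _ nhdsWithin_le_nhds
      apply Continuous.tendsto
      fun_prop
    simp only [mul_zero, Real.sqrt_zero, sub_zero] at hc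
    have h1 := hc.eventually (lt_mem_nhds hWt2)
    have h2 : ∀ᶠ η : ℝ in nhdsWithin 0 (Set.Ioi 0), η < f0 (ι x) :=
      nhdsWithin_le_nhds (gt_mem_nhds hx0)
    obtain ⟨η, ⟨hη1, hη2⟩, hη3⟩ := ((h1.and h2).and self_mem_nhdsWithin).exists
    exact ⟨η, hη3, hη1, hη2⟩
  obtain ⟨η1, hη1, hη1W⟩ := hcont1
  obtain ⟨η2, hη2, hη2W, hη2x⟩ := hcont2
  obtain ⟨a', ha', ha't, ha'η⟩ := exists_conc hu h0 h1 hne ht1pos hη1
  obtain ⟨b', hb', hb't, hb'η⟩ := exists_conc hu h1 h0 hne' ht2pos hη2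
  obtain ⟨ga, rfl⟩ := hι.surj a' ha'
  obtain ⟨gb, rfl⟩ := hι.surj b' hb'
  have sq1 : Real.sqrt (f0 (ι ga) * f1 (ι ga)) ≤ Real.sqrt (t1 * η1) := by
    apply Real.sqrt_le_sqrt
    rw [ha't]
    exact mul_le_mul_of_nonneg_left ha'η.le ht1pos.le
  have sq2 : Real.sqrt (f0 (ι gb) * f1 (ι gb)) ≤ Real.sqrt (t2 * η2) := by
    apply Real.sqrt_le_sqrt
    rw [hb't, mul_comm]
    exact mul_le_mul_of_nonneg_left hb'η.le ht2pos.le
  have p1 := (abs_le.1 (hcsp _ ha')).2
  have m1 := (abs_le.1 (hcsm _ ha')).2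
  have p2 := (abs_le.1 (hcsp _ hb')).1
  have m2 := (abs_le.1 (hcsm _ hb')).1
  have hgb0 : 0 < f0 (ι gb) := h0.apply_pos hb'
  have c1 : fp (ι ga) < fp (ι gb) := by linarith
  have c2 : fm (ι ga) < fm (ι gb) := by linarith
  have s1 := shift_mono hι hu h0 c (show f0 (ι a) < f0 (ι ga) by linarith)
  have s2 := shift_mono hι hu hp c c1
  have s3 := shift_mono hι hu hm c c2
  have s4 := shift_mono hι hu h1 c (show f1 (ι gb) < f1 (ι b) by linarith)
  have s5 := shift_mono hι hu h0 c (show f0 (ι gb) < f0 (ι x) by linarith)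
  have e1 := hsum (ι (ga + c))
  have e2 := hsum (ι (gb + c))
  have e3 : 0 < f1 (ι (ga + c)) := h1.apply_pos (hι.mem _)
  linarith

end OrderUnit

end Pool.Agent.H54
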